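import Mathlib

set_option autoImplicit false

/-!
# MP_f5b38d: the upper bound `τ(G) ≤ β(G)` is not always attained

Let `G` be the star `K_{1,34}` together with one edge joining two of its leaves.  It has
`n = m = 35` and `k = 3`, so `β(G) = ⌊min(35.5 (1 + √2), 86)⌋ = 85`.  The graph `G ∪ 85 P₃` has
`205` edges and `290` vertices.  In an antimagic labelling the centre would have vertex sum at
least `1 + ⋯ + 34 = 595`, and the other `289` distinct positive vertex sums would add up to at
least `41905`; but the total is `205 · 206 = 42230`.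
-/

namespace Pool.Agent.Results.MP_f5b38d_co.StarPlusEdge

open SimpleGraph

/-! ### definitions -/

open Classical in
/-- `φ_f(v)`: the sum of `f(e)` over the edges `e` incident to `v`. -/
noncomputable def vertexSum {V : Type} [Fintype V] (G : SimpleGraph V) (f : Sym2 V → ℕ)
    (v : V) : ℕ :=
  ∑ e ∈ Finset.univ.filter (fun e : Sym2 V => e ∈ G.edgeSet ∧ v ∈ e), f e

/-- `G` is antimagic: some bijection `f : E(G) → {1,…,m}` has pairwise distinct vertex sums. -/
def Antimagic {V : Type} [Fintype V] (G : SimpleGraph V) : Prop :=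
  ∃ f : Sym2 V → ℕ, Set.BijOn f G.edgeSet (Set.Icc 1 G.edgeSet.ncard) ∧
    ∀ u v : V, u ≠ v → vertexSum G f u ≠ vertexSum G f v

/-- `t H`: the disjoint union of `t` copies of `H`. -/
def copies (t : ℕ) {W : Type} (H : SimpleGraph W) : SimpleGraph (Fin t × W) where
  Adj x y := x.1 = y.1 ∧ H.Adj x.2 y.2
  symm := ⟨fun _ _ h => ⟨h.1.symm, h.2.symm⟩⟩
  loopless := ⟨fun _ h => h.2.ne rfl⟩

open Classical in
/-- `τ(G)`, with value `⊥ = -∞` if `G` is not antimagic. -/
noncomputable def tau {V : Type} [Fintype V] (G : SimpleGraph V) : WithBot ℕ∞ :=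
  if Antimagic G then
    ((sSup ((fun t : ℕ => (t : ℕ∞)) ''
      {t : ℕ | ∀ t' ≤ t, Antimagic (G ⊕g copies t' (pathGraph 3))}) : ℕ∞) : WithBot ℕ∞)
  else ⊥

/-- a leaf -/
def IsLeaf {V : Type} (G : SimpleGraph V) (v : V) : Prop := (G.neighborSet v).ncard = 1

/-- the number `k` of internal edges -/
noncomputable def internalEdges {V : Type} (G : SimpleGraph V) : ℕ :=
  {e : Sym2 V | e ∈ G.edgeSet ∧ ∀ v ∈ e, ¬ IsLeaf G v}.ncard

/-- the number `t'` of components isomorphic to `P₃` -/
noncomputable def pathComponents {V : Type} (G : SimpleGraph V) : ℕ :=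
  {C : G.ConnectedComponent | Nonempty (C.toSimpleGraph ≃g pathGraph 3)}.ncard

/-- `β(G)` -/
noncomputable def beta {V : Type} [Fintype V] (G : SimpleGraph V) : ℤ :=
  ⌊min ((3 + 2 * √2) * ((G.edgeSet.ncard : ℝ) - Fintype.card V) +
      (1 + √2) * ((G.edgeSet.ncard : ℝ) + 1 / 2))
    (2 * (G.edgeSet.ncard : ℝ) + 5 * ((internalEdges G : ℝ) - pathComponents G) + 1)⌋

/-! ### counting -/

theorem sum_ge {α : Type} [DecidableEq α] (s : Finset α) (f : α → ℕ) :
    Set.InjOn f (s : Set α) → (∀ a ∈ s, 1 ≤ f a) →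
    s.card * (s.card + 1) ≤ 2 * ∑ a ∈ s, f a := by
  induction s using Finset.induction_on_max_value f with
  | empty => simp
  | insert a s ha hmax ih =>
    intro hinj hpos
    have ih' := ih (hinj.mono (by simp)) (fun b hb => hpos b (Finset.mem_insert_of_mem hb))
    rw [Finset.card_insert_of_notMem ha, Finset.sum_insert ha]
    have hfa : s.card + 1 ≤ f a := by
      have h1 : (insert a s).image f ⊆ Finset.Icc 1 (f a) := by
        intro y hy
        obtain ⟨b, hb, rfl⟩ := Finset.mem_image.1 hy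
        rw [Finset.mem_Icc]
        refine ⟨hpos b hb, ?_⟩
        rcases Finset.mem_insert.1 hb with rfl | hb
        · exact le_rfl
        · exact hmax b hb
      have h2 := Finset.card_le_card h1
      rw [Finset.card_image_of_injOn hinj, Nat.card_Icc, Finset.card_insert_of_notMem ha] at h2
      omega
    nlinarith

theorem sum_vertexSum {V : Type} [Fintype V] (G : SimpleGraph V) (f : Sym2 V → ℕ)
    (hf : Set.BijOn f G.edgeSet (Set.Icc 1 G.edgeSet.ncard)) :
    ∑ v, vertexSum G f v = G.edgeSet.ncard * (G.edgeSet.ncard + 1) := by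
  classical
  set M := G.edgeSet.ncard with hM
  have h1 : ∀ v, vertexSum G f v =
      ∑ e ∈ Finset.univ.filter (fun e : Sym2 V => e ∈ G.edgeSet), if v ∈ e then f e else 0 := by
    intro v
    rw [vertexSum, ← Finset.sum_filter, Finset.filter_filter]
  simp_rw [h1]
  rw [Finset.sum_comm]
  have h2 : ∀ e ∈ Finset.univ.filter (fun e : Sym2 V => e ∈ G.edgeSet),
      (∑ v : V, if v ∈ e then f e else 0) = 2 * f e := by
    intro e he
    rw [Finset.mem_filter] at he
    have hd : ¬ e.IsDiag := G.not_isDiag_of_mem_edgeSet he.2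
    rw [← Finset.sum_filter, Finset.sum_const, smul_eq_mul]
    congr 1
    have h3 := Sym2.card_toFinset_of_not_isDiag e hd
    rw [← h3]
    congr 1
    ext v
    simp
  rw [Finset.sum_congr rfl h2, ← Finset.mul_sum]
  have h4 : ∑ e ∈ Finset.univ.filter (fun e : Sym2 V => e ∈ G.edgeSet), f e =
      ∑ i ∈ Finset.Icc 1 M, i := by
    apply Finset.sum_bij (fun e _ => f e)
    · intro e he
      rw [Finset.mem_filter] at he
      have := hf.mapsTo he.2
      rwa [Set.mem_Icc, ← Finset.mem_Icc] at this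
    · intro e he e' he' h
      rw [Finset.mem_filter] at he he'
      exact hf.injOn he.2 he'.2 h
    · intro i hi
      rw [Finset.mem_Icc, ← Set.mem_Icc] at hi
      obtain ⟨e, he, rfl⟩ := hf.surjOn hi
      exact ⟨e, by simpa using he, rfl⟩
    · intros; rfl
  rw [h4]
  have h5 : ∑ i ∈ Finset.Icc 1 M, i = ∑ i ∈ Finset.range (M + 1), i := by
    rw [Finset.range_eq_Ico, Finset.sum_eq_sum_Ico_succ_bot (by omega : 0 < M + 1)]
    simp only [zero_add]
    rfl
  rw [h5, mul_comm, Finset.sum_range_id_mul_two]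
  rw [Nat.add_sub_cancel, mul_comm]

/-- The counting obstruction. -/
theorem antimagic_count {V : Type} [Fintype V] (G : SimpleGraph V) (v0 : V) (d : ℕ)
    (hd : d ≤ (G.neighborSet v0).ncard) (hiso : ∀ v, ∃ w, G.Adj v w) (h : Antimagic G) :
    (Fintype.card V - 1) * Fintype.card V + d * (d + 1) ≤
      2 * (G.edgeSet.ncard * (G.edgeSet.ncard + 1)) := by
  classical
  obtain ⟨f, hf, hdist⟩ := h
  rw [← sum_vertexSum G f hf]
  have hposE : ∀ e ∈ G.edgeSet, 1 ≤ f e := fun e he => (hf.mapsTo he).1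
  have h1 : ∀ v, 1 ≤ vertexSum G f v := by
    intro v
    obtain ⟨w, hw⟩ := hiso v
    have hmem : s(v, w) ∈ Finset.univ.filter (fun e : Sym2 V => e ∈ G.edgeSet ∧ v ∈ e) := by
      simp [hw]
    have h2 := Finset.single_le_sum (f := f) (fun e _ => Nat.zero_le _) hmem
    have h3 := hposE s(v, w) hw
    exact h3.trans h2
  have h2 : (Fintype.card V - 1) * Fintype.card V ≤
      2 * ∑ v ∈ Finset.univ.erase v0, vertexSum G f v := by
    have h3 := sum_ge (Finset.univ.erase v0) (vertexSum G f)
      (fun u _ v _ huv => by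
        by_contra hne
        exact hdist u v hne huv) (fun v _ => h1 v)
    rw [Finset.card_erase_of_mem (Finset.mem_univ _), Finset.card_univ] at h3
    have h4 : 0 < Fintype.card V := Fintype.card_pos_iff.2 ⟨v0⟩
    have h5 : Fintype.card V - 1 + 1 = Fintype.card V := by omega
    rwa [h5] at h3
  have h3 : d * (d + 1) ≤ 2 * vertexSum G f v0 := by
    have h4 := sum_ge (Finset.univ.filter (fun e : Sym2 V => e ∈ G.edgeSet ∧ v0 ∈ e)) f
      (fun e he e' he' hee => by
        rw [Finset.mem_coe, Finset.mem_filter] at he he'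
        exact hf.injOn he.2.1 he'.2.1 hee)
      (fun e he => by
        rw [Finset.mem_filter] at he
        exact hposE e he.2.1)
    have h5 : d ≤ (Finset.univ.filter (fun e : Sym2 V => e ∈ G.edgeSet ∧ v0 ∈ e)).card := by
      refine hd.trans ?_
      rw [Set.ncard_eq_toFinset_card']
      apply Finset.card_le_card_of_injOn (fun w => s(v0, w))
      · intro w hw
        have : G.Adj v0 w := by simpa using hw
        simp [this]
      · intro w _ w' _ hww
        exact Sym2.congr_right.1 hww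
    exact (Nat.mul_le_mul h5 (Nat.add_le_add_right h5 1)).trans h4
  have h4 : ∑ v, vertexSum G f v =
      vertexSum G f v0 + ∑ v ∈ Finset.univ.erase v0, vertexSum G f v :=
    (Finset.add_sum_erase _ _ (Finset.mem_univ v0)).symm
  omega

/-! ### the graph -/

/-- The star `K_{1,34}` with centre `0` together with the edge `{1,2}`. -/
def G : SimpleGraph (Fin 35) where
  Adj x y := x ≠ y ∧ (x = 0 ∨ y = 0 ∨ (x.val ≤ 2 ∧ y.val ≤ 2))
  symm := ⟨fun _ _ h => ⟨h.1.symm, by tauto⟩⟩
  loopless := ⟨fun _ h => h.1 rfl⟩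

theorem G_adj (x y : Fin 35) :
    G.Adj x y ↔ x ≠ y ∧ (x = 0 ∨ y = 0 ∨ (x.val ≤ 2 ∧ y.val ≤ 2)) := Iff.rfl

theorem G_connected : G.Connected := by
  have h0 : ∀ x, G.Reachable x 0 := by
    intro x
    by_cases hx : x = 0
    · rw [hx]
    · exact Adj.reachable ⟨hx, Or.inr (Or.inl rfl)⟩
  exact ⟨fun x y => (h0 x).trans (h0 y).symm⟩

/-- The edges of `G`, listed by `Fin 35`. -/
def edgeG (i : Fin 35) : Sym2 (Fin 35) :=
  if i = 0 then s(1, 2) else s(0, i)

theorem edgeG_range : G.edgeSet = Set.range edgeG := by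
  ext e
  induction e using Sym2.ind with
  | _ x y =>
    rw [mem_edgeSet, Set.mem_range, G_adj]
    constructor
    · rintro ⟨hne, h⟩
      by_cases hx : x = 0
      · subst hx
        exact ⟨y, by rw [edgeG, if_neg (Ne.symm hne)]⟩
      · by_cases hy : y = 0
        · subst hy
          exact ⟨x, by rw [edgeG, if_neg hne, Sym2.eq_swap]⟩
        · have h' : x.val ≤ 2 ∧ y.val ≤ 2 := by tauto
          refine ⟨0, ?_⟩
          rw [edgeG, if_pos rfl, Sym2.eq_iff]
          simp only [Fin.ext_iff] at hx hy hne ⊢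
          simp only [Fin.val_zero, Fin.val_one] at hx hy ⊢
          have : ((2 : Fin 35) : ℕ) = 2 := rfl
          omega
    · rintro ⟨i, hi⟩
      unfold edgeG at hi
      split_ifs at hi with h
      · rw [Sym2.eq_iff] at hi
        rcases hi with ⟨rfl, rfl⟩ | ⟨rfl, rfl⟩ <;> decide
      · rw [Sym2.eq_iff] at hi
        rcases hi with ⟨rfl, rfl⟩ | ⟨rfl, rfl⟩
        · exact ⟨Ne.symm h, Or.inl rfl⟩
        · exact ⟨h, Or.inr (Or.inl rfl)⟩

theorem edgeG_injective : Function.Injective edgeG := by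
  intro i j h
  unfold edgeG at h
  split_ifs at h with h1 h2 h2
  · rw [h1, h2]
  · rw [Sym2.eq_iff] at h
    rcases h with ⟨h, _⟩ | ⟨_, h⟩
    · exact absurd h (by decide)
    · exact absurd h (by decide)
  · rw [Sym2.eq_iff] at h
    rcases h with ⟨h, _⟩ | ⟨h, _⟩
    · exact absurd h (by decide)
    · exact absurd h (by decide)
  · exact Sym2.congr_right.1 h

theorem card_edges_G : G.edgeSet.ncard = 35 := by
  rw [edgeG_range, ← Set.image_univ, Set.ncard_image_of_injective _ edgeG_injective,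
    Set.ncard_univ, Nat.card_eq_fintype_card, Fintype.card_fin]

theorem leaf_iff (v : Fin 35) : IsLeaf G v ↔ 3 ≤ v.val := by
  unfold IsLeaf
  constructor
  · intro h
    by_contra hcon
    push Not at hcon
    obtain ⟨w, hw⟩ := Set.ncard_eq_one.1 h
    have key : ∀ v : Fin 35, v.val < 3 → ∃ a b, a ≠ b ∧ G.Adj v a ∧ G.Adj v b := by
      intro v hv
      have h3 : v = 0 ∨ v = 1 ∨ v = 2 := by
        rw [Fin.ext_iff, Fin.ext_iff, Fin.ext_iff]
        have : ((2 : Fin 35) : ℕ) = 2 := rfl
        have : ((1 : Fin 35) : ℕ) = 1 := rfl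
        have : ((0 : Fin 35) : ℕ) = 0 := rfl
        omega
      rcases h3 with rfl | rfl | rfl
      · exact ⟨1, 2, by decide, by rw [G_adj]; decide, by rw [G_adj]; decide⟩
      · exact ⟨0, 2, by decide, by rw [G_adj]; decide, by rw [G_adj]; decide⟩
      · exact ⟨0, 1, by decide, by rw [G_adj]; decide, by rw [G_adj]; decide⟩
    obtain ⟨a, b, hab, ha, hb⟩ := key v hcon
    rw [← mem_neighborSet, hw, Set.mem_singleton_iff] at ha hb
    exact hab (ha.trans hb.symm)
  · intro h
    rw [Set.ncard_eq_one]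
    refine ⟨0, ?_⟩
    ext w
    rw [mem_neighborSet, Set.mem_singleton_iff, G_adj]
    constructor
    · rintro ⟨hne, h1 | h1 | h1⟩
      · rw [h1] at h
        exact absurd h (by decide)
      · exact h1
      · omega
    · rintro rfl
      refine ⟨?_, Or.inr (Or.inl rfl)⟩
      rintro rfl
      exact absurd h (by decide)

theorem internal_G : internalEdges G = 3 := by
  unfold internalEdges
  have : {e : Sym2 (Fin 35) | e ∈ G.edgeSet ∧ ∀ v ∈ e, ¬ IsLeaf G v} =
      ((({s(0, 1), s(0, 2), s(1, 2)} : Finset (Sym2 (Fin 35)))) : Set (Sym2 (Fin 35))) := by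
    ext e
    induction e using Sym2.ind with
    | _ x y =>
      rw [Set.mem_ofPred_eq, mem_edgeSet, G_adj, Sym2.ball]
      simp only [leaf_iff, Finset.coe_insert,
        Finset.coe_singleton, Set.mem_insert_iff, Set.mem_singleton_iff, Sym2.eq_iff, Fin.ext_iff]
      have e2 : ((2 : Fin 35) : ℕ) = 2 := rfl
      have e1 : ((1 : Fin 35) : ℕ) = 1 := rfl
      have e0 : ((0 : Fin 35) : ℕ) = 0 := rfl
      omega
  rw [this, Set.ncard_coe_finset]
  decide

theorem component_supp (C : G.ConnectedComponent) : C.supp = Set.univ := by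
  ext v
  simp only [ConnectedComponent.mem_supp_iff, Set.mem_univ, iff_true]
  induction C using ConnectedComponent.ind with
  | _ w => exact ConnectedComponent.sound (G_connected.preconnected v w)

theorem no_small_component (r : ℕ) (hr : r ≠ 35) (C : G.ConnectedComponent) :
    IsEmpty (C.toSimpleGraph ≃g pathGraph r) := by
  constructor
  intro φ
  have h1 := Nat.card_congr φ.toEquiv
  have h2 : Nat.card C = 35 := by
    have : Nat.card C = C.supp.ncard := rfl
    rw [this, component_supp, Set.ncard_univ, Nat.card_eq_fintype_card, Fintype.card_fin]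
  rw [h2, Nat.card_eq_fintype_card, Fintype.card_fin] at h1
  exact hr h1.symm

theorem path_G : pathComponents G = 0 := by
  unfold pathComponents
  have : {C : G.ConnectedComponent | Nonempty (C.toSimpleGraph ≃g pathGraph 3)} = ∅ := by
    rw [Set.eq_empty_iff_forall_notMem]
    rintro C ⟨φ⟩
    exact (no_small_component 3 (by norm_num) C).false φ
  rw [this, Set.ncard_empty]

theorem beta_G : beta G = 85 := by
  unfold beta
  rw [card_edges_G, internal_G, path_G, Fintype.card_fin, Int.floor_eq_iff]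
  have h1 : (1.4 : ℝ) ≤ √2 := by
    rw [show (1.4 : ℝ) = √(1.4 ^ 2) by rw [Real.sqrt_sq (by norm_num)]]
    exact Real.sqrt_le_sqrt (by norm_num)
  have h2 : √2 ≤ (1.42 : ℝ) := by
    rw [show (1.42 : ℝ) = √(1.42 ^ 2) by rw [Real.sqrt_sq (by norm_num)]]
    exact Real.sqrt_le_sqrt (by norm_num)
  push_cast
  constructor
  · apply le_min
    · linarith
    · norm_num
  · apply lt_of_le_of_lt (min_le_left _ _)
    linarith

/-! ### the union with 85 paths -/

abbrev U : SimpleGraph (Fin 35 ⊕ (Fin 85 × Fin 3)) := G ⊕g copies 85 (pathGraph 3)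

def edgeU : Fin 35 ⊕ (Fin 85 × Fin 2) → Sym2 (Fin 35 ⊕ (Fin 85 × Fin 3))
  | Sum.inl i => (edgeG i).map Sum.inl
  | Sum.inr (t, b) => s(Sum.inr (t, b.castSucc), Sum.inr (t, b.succ))

theorem edgeSet_U : U.edgeSet ⊆ Set.range edgeU := by
  intro e
  induction e using Sym2.ind with
  | _ x y =>
    rw [mem_edgeSet]
    rcases x with x | ⟨t, a⟩ <;> rcases y with y | ⟨t', a'⟩
    · intro h
      rw [sum_adj_inl, ← mem_edgeSet, edgeG_range] at h
      obtain ⟨i, hi⟩ := h
      refine ⟨Sum.inl i, ?_⟩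
      rw [edgeU, hi, Sym2.map_mk]
    · intro h; simp at h
    · intro h; simp at h
    · intro h
      rw [sum_adj_inr] at h
      obtain ⟨h1, h2⟩ := h
      simp only at h1 h2
      subst h1
      rw [pathGraph_adj] at h2
      rcases h2 with h2 | h2
      · refine ⟨Sum.inr (t, ⟨a.val, by omega⟩), ?_⟩
        have h3 : (⟨a.val, by omega⟩ : Fin 2).succ = a' := Fin.ext h2
        rw [edgeU, h3]
        rfl
      · refine ⟨Sum.inr (t, ⟨a'.val, by omega⟩), ?_⟩
        have h3 : (⟨a'.val, by omega⟩ : Fin 2).succ = a := Fin.ext h2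
        rw [edgeU, h3, Sym2.eq_swap]
        rfl

theorem card_U : U.edgeSet.ncard ≤ 205 := by
  refine (Set.ncard_le_ncard edgeSet_U (Set.finite_range _)).trans ?_
  rw [← Set.image_univ]
  refine (Set.ncard_image_le (Set.finite_univ)).trans ?_
  rw [Set.ncard_univ, Nat.card_eq_fintype_card]
  simp

theorem not_antimagic : ¬ Antimagic U := by
  intro h
  have h1 := antimagic_count U (Sum.inl 0) 34 ?_ ?_ h
  · have h2 := card_U
    have h3 : Fintype.card (Fin 35 ⊕ (Fin 85 × Fin 3)) = 290 := by simp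
    rw [h3] at h1
    have h4 : U.edgeSet.ncard * (U.edgeSet.ncard + 1) ≤ 205 * 206 :=
      Nat.mul_le_mul h2 (Nat.add_le_add_right h2 1)
    omega
  · have h5 : (fun w : Fin 34 => (Sum.inl w.succ : Fin 35 ⊕ (Fin 85 × Fin 3))) '' Set.univ ⊆
        U.neighborSet (Sum.inl 0) := by
      rintro _ ⟨w, _, rfl⟩
      rw [mem_neighborSet, sum_adj_inl, G_adj]
      exact ⟨(Fin.succ_ne_zero w).symm, Or.inl rfl⟩
    have h6 := Set.ncard_le_ncard h5 (Set.toFinite _)
    rw [Set.ncard_image_of_injective, Set.ncard_univ, Nat.card_eq_fintype_card,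
      Fintype.card_fin] at h6
    · exact h6
    · intro a b hab
      exact Fin.succ_injective _ (Sum.inl_injective hab)
  · rintro (x | ⟨t, a⟩)
    · by_cases hx : x = 0
      · exact ⟨Sum.inl 1, by rw [sum_adj_inl, G_adj, hx]; decide⟩
      · exact ⟨Sum.inl 0, by rw [sum_adj_inl, G_adj]; exact ⟨hx, Or.inr (Or.inl rfl)⟩⟩
    · by_cases ha : a = 1
      · refine ⟨Sum.inr (t, 0), ?_⟩
        rw [sum_adj_inr]
        refine ⟨rfl, ?_⟩
        rw [pathGraph_adj, ha]
        exact Or.inr rfl
      · refine ⟨Sum.inr (t, 1), ?_⟩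
        rw [sum_adj_inr]
        refine ⟨rfl, ?_⟩
        rw [pathGraph_adj]
        rw [Fin.ext_iff] at ha
        have e1 : ((1 : Fin 3) : ℕ) = 1 := rfl
        simp only
        omega

theorem tau_G : tau G ≤ ((84 : ℕ∞) : WithBot ℕ∞) := by
  unfold tau
  split_ifs with h
  · rw [WithBot.coe_le_coe]
    apply sSup_le
    rintro _ ⟨t, ht, rfl⟩
    have : t ≤ 84 := by
      by_contra hcon
      push Not at hcon
      exact not_antimagic (ht 85 hcon)
    change (t : ℕ∞) ≤ 84
    exact_mod_cast this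
  · exact bot_le

/-- There is a graph `G` (on 35 vertices, connected) with no isolated vertices and no component
`P₂` such that `β(G) = 85` and `τ(G) ≤ 84`. -/
theorem result : ∃ G : SimpleGraph (Fin 35), G.Connected ∧ (∀ v, ∃ w, G.Adj v w) ∧
    (∀ C : G.ConnectedComponent, IsEmpty (C.toSimpleGraph ≃g pathGraph 2)) ∧
    beta G = 85 ∧ tau G ≤ ((84 : ℕ∞) : WithBot ℕ∞) ∧
    ¬ Antimagic (G ⊕g copies 85 (pathGraph 3)) := by
  refine ⟨G, G_connected, ?_, no_small_component 2 (by norm_num), beta_G, tau_G, not_antimagic⟩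
  intro x
  by_cases hx : x = 0
  · exact ⟨1, by rw [G_adj, hx]; decide⟩
  · exact ⟨0, by rw [G_adj]; exact ⟨hx, Or.inr (Or.inl rfl)⟩⟩

end Pool.Agent.Results.MP_f5b38d_co.StarPlusEdge
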